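import Mathlib

/-!
# The canonical form of an orthogonal map of an even-dimensional Euclidean space
-/

set_option autoImplicit false
set_option linter.unusedSectionVars false
set_option linter.style.haveILetI false

open Module

namespace Pool.Agent.K3lead.Canon

variable {E : Type} [NormedAddCommGroup E] [InnerProductSpace ℝ E] [FiniteDimensional ℝ E]

/-- `A'` is the adjoint and the inverse of `A`. -/
structure Orth (A A' : E →ₗ[ℝ] E) : Prop where
  adj : ∀ x y, inner ℝ (A x) y = inner ℝ x (A' y)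
  h1 : ∀ x, A (A' x) = x
  h2 : ∀ x, A' (A x) = x

variable {A A' : E →ₗ[ℝ] E}

lemma Orth.inner_map (h : Orth A A') (x y : E) : inner ℝ (A x) (A y) = inner ℝ x y := by
  rw [h.adj, h.h2]

lemma Orth.norm_map (h : Orth A A') (x : E) : ‖A x‖ = ‖x‖ := by
  have h1 := h.inner_map x x
  rw [real_inner_self_eq_norm_sq, real_inner_self_eq_norm_sq] at h1
  exact (pow_left_inj₀ (norm_nonneg _) (norm_nonneg _) two_ne_zero).1 h1

lemma exists_eigen (h : Orth A A') (V : Submodule ℝ E) (hV : ∀ x ∈ V, A x ∈ V)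
    (hV' : ∀ x ∈ V, A' x ∈ V) (hne : 0 < finrank ℝ V) :
    ∃ x ∈ V, ‖x‖ = 1 ∧ ∃ c : ℝ, A x + A' x = c • x := by
  have hS : ∀ x ∈ V, (A + A') x ∈ V := fun x hx => by
    rw [LinearMap.add_apply]; exact V.add_mem (hV x hx) (hV' x hx)
  let T : V →ₗ[ℝ] V := (A + A').restrict hS
  have hT : T.IsSymmetric := by
    intro x y
    simp only [T, Submodule.coe_inner, LinearMap.coe_restrict_apply, LinearMap.add_apply,
      inner_add_left, inner_add_right]
    have e1 := h.adj (x : E) (y : E)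
    have e2 : inner ℝ (A' (x : E)) (y : E) = inner ℝ (x : E) (A (y : E)) := by
      rw [real_inner_comm, ← h.adj, real_inner_comm]
    rw [e1, e2]; ring
  haveI : Nontrivial V := Module.finrank_pos_iff.1 hne
  obtain ⟨v, hv⟩ := (hT.hasEigenvalue_iSup_of_finiteDimensional).exists_hasEigenvector
  set c := (⨆ x : { x : V // x ≠ 0 }, RCLike.re (inner ℝ (T x) (x : V)) / ‖(x : V)‖ ^ 2 : ℝ) with hc
  have hv0 : v ≠ 0 := hv.2
  have hvT : T v = c • v := hv.apply_eq_smul
  have hvE : A (v : E) + A' (v : E) = c • (v : E) := by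
    have := congrArg (Subtype.val) hvT
    simpa [T] using this
  have hn : ‖(v : E)‖ ≠ 0 := by
    rw [norm_ne_zero_iff]; exact fun h0 => hv0 (Subtype.ext h0)
  refine ⟨(‖(v : E)‖)⁻¹ • (v : E), V.smul_mem _ v.2, ?_, c, ?_⟩
  · rw [norm_smul, norm_inv, norm_norm, inv_mul_cancel₀ hn]
  · rw [map_smul, map_smul, ← smul_add, hvE, smul_comm]

/-- A rotated plane. -/
def Plane (A : E →ₗ[ℝ] E) (V : Submodule ℝ E) (x y : E) (t : ℝ) : Prop :=
  x ∈ V ∧ y ∈ V ∧ ‖x‖ = 1 ∧ ‖y‖ = 1 ∧ inner ℝ x y = 0 ∧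
    A x = Real.cos t • x + Real.sin t • y ∧ A y = (-Real.sin t) • x + Real.cos t • y

lemma plane_or (h : Orth A A') (V : Submodule ℝ E) (hV : ∀ x ∈ V, A x ∈ V) {x : E} (hx : x ∈ V)
    (hx1 : ‖x‖ = 1) {c : ℝ} (hc : A x + A' x = c • x) :
    (∃ y t, Plane A V x y t) ∨ A x = x ∨ A x = -x := by
  set a : ℝ := inner ℝ (A x) x with ha
  have hxx : inner ℝ x x = (1 : ℝ) := by rw [real_inner_self_eq_norm_sq, hx1]; norm_num
  have hAA : inner ℝ (A x) (A x) = (1 : ℝ) := by rw [h.inner_map, hxx]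
  have hxA : inner ℝ x (A x) = a := by rw [real_inner_comm]
  have hc2 : c = 2 * a := by
    have h1 := congrArg (fun z => inner ℝ z x) hc
    simp only [inner_add_left, inner_smul_left] at h1
    have h2 : inner ℝ (A' x) x = a := by rw [real_inner_comm, ← h.adj]
    rw [h2, hxx] at h1
    simp at h1
    linarith
  have hA2 : A (A x) = c • A x - x := by
    have h1 := congrArg A hc
    rw [map_add, h.h1, map_smul] at h1
    rw [← h1]; abel
  have hsq : inner ℝ (A x - a • x) (A x - a • x) = 1 - a ^ 2 := by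
    simp only [inner_sub_left, inner_sub_right, inner_smul_left, inner_smul_right]
    rw [hAA, hxA, hxx, ← ha]
    simp
    ring
  have hpos : 0 ≤ 1 - a ^ 2 := by rw [← hsq]; exact real_inner_self_nonneg
  by_cases h0 : 1 - a ^ 2 = 0
  · right
    have hz : A x - a • x = 0 := by
      rw [h0] at hsq
      exact inner_self_eq_zero.1 hsq
    have hAx : A x = a • x := sub_eq_zero.1 hz
    have : a = 1 ∨ a = -1 := by
      have : (a - 1) * (a + 1) = 0 := by linarith [h0]
      rcases mul_eq_zero.1 this with h | h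
      · left; linarith
      · right; linarith
    rcases this with h1 | h1
    · left; rw [hAx, h1, one_smul]
    · right; rw [hAx, h1, neg_one_smul]
  · left
    have hpos' : 0 < 1 - a ^ 2 := lt_of_le_of_ne hpos (Ne.symm h0)
    set s : ℝ := √(1 - a ^ 2) with hs
    have hs0 : 0 < s := Real.sqrt_pos.2 hpos'
    have hs2 : s ^ 2 = 1 - a ^ 2 := Real.sq_sqrt hpos
    have ha1 : -1 ≤ a ∧ a ≤ 1 := by constructor <;> nlinarith
    have hcos : Real.cos (Real.arccos a) = a := Real.cos_arccos ha1.1 ha1.2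
    have hsin : Real.sin (Real.arccos a) = s := by rw [Real.sin_arccos]
    set y : E := s⁻¹ • (A x - a • x) with hy
    have hsy : s • y = A x - a • x := by rw [hy, smul_smul, mul_inv_cancel₀ hs0.ne', one_smul]
    have hyV : y ∈ V := V.smul_mem _ (V.sub_mem (hV x hx) (V.smul_mem _ hx))
    have hyy : inner ℝ y y = (1 : ℝ) := by
      rw [hy, inner_smul_left, inner_smul_right, hsq, ← hs2]
      simp
      field_simp
    refine ⟨y, Real.arccos a, hx, hyV, hx1, ?_, ?_, ?_, ?_⟩
    · rw [real_inner_self_eq_norm_sq] at hyy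
      nlinarith [norm_nonneg y, sq_nonneg (‖y‖ - 1)]
    · rw [hy, inner_smul_right, inner_sub_right, inner_smul_right, hxA, hxx]
      simp
    · rw [hcos, hsin, hsy]; abel
    · rw [hcos, hsin]
      have h3 : s • A y = s • ((-s) • x + a • y) := by
        rw [← map_smul, hsy, map_sub, map_smul, hA2, hc2, smul_add, smul_smul, smul_comm s a y, hsy]
        have : s * -s = a ^ 2 - 1 := by nlinarith
        rw [this]
        module
      exact smul_right_injective E hs0.ne' h3

lemma Plane.mono {V W : Submodule ℝ E} (hVW : V ≤ W) {x y : E} {t : ℝ} (h : Plane A V x y t) :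
    Plane A W x y t := by
  obtain ⟨h1, h2, h3⟩ := h
  exact ⟨hVW h1, hVW h2, h3⟩

/-- Complement of a plane or a line spanned by eigenvectors. -/
lemma compl_inv (h : Orth A A') {U : Submodule ℝ E} (hU : ∀ x ∈ U, A x ∈ U)
    (hU' : ∀ x ∈ U, A' x ∈ U) {W : Submodule ℝ E} (hW : ∀ x ∈ W, A x ∈ W)
    (hW' : ∀ x ∈ W, A' x ∈ W) :
    (∀ x ∈ Wᗮ ⊓ U, A x ∈ Wᗮ ⊓ U) ∧ (∀ x ∈ Wᗮ ⊓ U, A' x ∈ Wᗮ ⊓ U) := by
  constructor
  · rintro x ⟨hx1, hx2⟩
    refine ⟨?_, hU x hx2⟩
    change A x ∈ Wᗮ
    rw [Submodule.mem_orthogonal]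
    intro w hw
    rw [real_inner_comm, h.adj, real_inner_comm]
    exact (Submodule.mem_orthogonal W x).1 hx1 _ (hW' w hw)
  · rintro x ⟨hx1, hx2⟩
    refine ⟨?_, hU' x hx2⟩
    change A' x ∈ Wᗮ
    rw [Submodule.mem_orthogonal]
    intro w hw
    rw [← h.adj]
    exact (Submodule.mem_orthogonal W x).1 hx1 _ (hW w hw)

lemma span_pair_inv {x y : E} (B : E →ₗ[ℝ] E) (hx : B x ∈ Submodule.span ℝ {x, y})
    (hy : B y ∈ Submodule.span ℝ {x, y}) :
    ∀ z ∈ Submodule.span ℝ {x, y}, B z ∈ Submodule.span ℝ {x, y} := by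
  intro z hz
  rw [Submodule.mem_span_pair] at hz
  obtain ⟨a, b, rfl⟩ := hz
  rw [map_add, map_smul, map_smul]
  exact Submodule.add_mem _ (Submodule.smul_mem _ _ hx) (Submodule.smul_mem _ _ hy)

lemma finrank_pair {x y : E} (hx : ‖x‖ = 1) (hy : ‖y‖ = 1) (hxy : inner ℝ x y = (0 : ℝ)) :
    finrank ℝ (Submodule.span ℝ {x, y}) = 2 := by
  have hli : LinearIndependent ℝ ![x, y] := by
    rw [LinearIndependent.pair_iff]
    intro s t hst
    have h1 := congrArg (fun z => inner ℝ x z) hst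
    have h2 := congrArg (fun z => inner ℝ y z) hst
    simp only [inner_add_right, inner_smul_right, inner_zero_right] at h1 h2
    rw [real_inner_comm] at hxy
    rw [real_inner_self_eq_norm_sq, hx, real_inner_comm, hxy] at h1
    rw [hxy, real_inner_self_eq_norm_sq, hy] at h2
    constructor
    · simpa using h1
    · simpa using h2
  have h := finrank_span_eq_card hli
  have hr : Set.range ![x, y] = {x, y} := by
    ext z
    simp only [Set.mem_range, Fin.exists_fin_two, Set.mem_insert_iff, Set.mem_singleton_iff]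
    exact or_congr eq_comm eq_comm
  rw [hr] at h
  simpa using h

lemma Plane.inv (h : Orth A A') {V : Submodule ℝ E} {x y : E} {t : ℝ} (hp : Plane A V x y t) :
    (∀ z ∈ Submodule.span ℝ {x, y}, A z ∈ Submodule.span ℝ {x, y}) ∧
      (∀ z ∈ Submodule.span ℝ {x, y}, A' z ∈ Submodule.span ℝ {x, y}) := by
  obtain ⟨_, _, _, _, _, hAx, hAy⟩ := hp
  have hcs := Real.sin_sq_add_cos_sq t
  constructor
  · refine span_pair_inv A ?_ ?_
    · rw [hAx, Submodule.mem_span_pair]; exact ⟨_, _, rfl⟩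
    · rw [hAy, Submodule.mem_span_pair]; exact ⟨_, _, rfl⟩
  · refine span_pair_inv A' ?_ ?_
    · have : A (Real.cos t • x - Real.sin t • y) = x := by
        rw [map_sub, map_smul, map_smul, hAx, hAy]
        have e : Real.cos t • (Real.cos t • x + Real.sin t • y) -
            Real.sin t • ((-Real.sin t) • x + Real.cos t • y) =
            (Real.sin t ^ 2 + Real.cos t ^ 2) • x := by module
        rw [e, hcs, one_smul]
      have h2 := h.h2 (Real.cos t • x - Real.sin t • y)
      rw [this] at h2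
      rw [h2, Submodule.mem_span_pair]
      exact ⟨Real.cos t, -Real.sin t, by module⟩
    · have : A (Real.sin t • x + Real.cos t • y) = y := by
        rw [map_add, map_smul, map_smul, hAx, hAy]
        have e : Real.sin t • (Real.cos t • x + Real.sin t • y) +
            Real.cos t • ((-Real.sin t) • x + Real.cos t • y) =
            (Real.sin t ^ 2 + Real.cos t ^ 2) • y := by module
        rw [e, hcs, one_smul]
      have h2 := h.h2 (Real.sin t • x + Real.cos t • y)
      rw [this] at h2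
      rw [h2, Submodule.mem_span_pair]
      exact ⟨Real.sin t, Real.cos t, by module⟩

lemma eig_inv' (h : Orth A A') {x : E} {e : ℝ} (he : e = 1 ∨ e = -1) (hx : A x = e • x) :
    A' x = e • x := by
  have h2 := h.h2 (e • x)
  rw [map_smul, hx, smul_smul] at h2
  have : e * e = 1 := by rcases he with rfl | rfl <;> norm_num
  rw [this, one_smul] at h2
  exact h2

/-- Two orthonormal eigenvectors with the same sign span a rotated plane. -/
lemma plane_of_eig {V : Submodule ℝ E} {x y : E} {e : ℝ} (he : e = 1 ∨ e = -1) (hxV : x ∈ V)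
    (hyV : y ∈ V) (hx1 : ‖x‖ = 1) (hy1 : ‖y‖ = 1) (hxy : inner ℝ x y = (0 : ℝ))
    (hx : A x = e • x) (hy : A y = e • y) : ∃ t, Plane A V x y t := by
  rcases he with rfl | rfl
  · exact ⟨0, hxV, hyV, hx1, hy1, hxy, by simp [hx], by simp [hy]⟩
  · exact ⟨Real.pi, hxV, hyV, hx1, hy1, hxy, by simp [hx], by simp [hy]⟩

lemma step (h : Orth A A') {U : Submodule ℝ E} (hU : ∀ x ∈ U, A x ∈ U)
    (hU' : ∀ x ∈ U, A' x ∈ U) {m : ℕ} (hm : finrank ℝ U = 2 * (m + 1)) :
    (∃ x y t, Plane A U x y t) ∨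
      (m = 0 ∧ ∃ x y, x ∈ U ∧ y ∈ U ∧ ‖x‖ = 1 ∧ ‖y‖ = 1 ∧ inner ℝ x y = (0 : ℝ) ∧
        A x = x ∧ A y = -y) := by
  have sgn : ∀ x : E, (A x = x ∨ A x = -x) ↔ ∃ e : ℝ, (e = 1 ∨ e = -1) ∧ A x = e • x := by
    intro x
    constructor
    · rintro (h | h)
      · exact ⟨1, Or.inl rfl, by rw [h, one_smul]⟩
      · exact ⟨-1, Or.inr rfl, by rw [h, neg_one_smul]⟩
    · rintro ⟨e, rfl | rfl, h⟩
      · left; rw [h, one_smul]
      · right; rw [h, neg_one_smul]
  obtain ⟨x, hxU, hx1, c, hc⟩ := exists_eigen h U hU hU' (by omega)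
  rcases plane_or h U hU hxU hx1 hc with ⟨y, t, hp⟩ | hxe
  · exact Or.inl ⟨x, y, t, hp⟩
  obtain ⟨e, he, hxe⟩ := (sgn x).1 hxe
  -- the complement of `x`
  have hWx : ∀ z ∈ Submodule.span ℝ {x}, A z ∈ Submodule.span ℝ {x} := by
    intro z hz
    obtain ⟨a, rfl⟩ := Submodule.mem_span_singleton.1 hz
    rw [map_smul, hxe, smul_smul]
    exact Submodule.smul_mem _ _ (Submodule.mem_span_singleton_self x)
  have hWx' : ∀ z ∈ Submodule.span ℝ {x}, A' z ∈ Submodule.span ℝ {x} := by
    intro z hz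
    obtain ⟨a, rfl⟩ := Submodule.mem_span_singleton.1 hz
    rw [map_smul, eig_inv' h he hxe, smul_smul]
    exact Submodule.smul_mem _ _ (Submodule.mem_span_singleton_self x)
  obtain ⟨hc1, hc2⟩ := compl_inv h hU hU' hWx hWx'
  have hx0 : x ≠ 0 := by rintro rfl; simp at hx1
  have hle : Submodule.span ℝ {x} ≤ U := (Submodule.span_singleton_le_iff_mem x U).2 hxU
  have hf1 := Submodule.finrank_add_inf_finrank_orthogonal hle
  rw [finrank_span_singleton hx0] at hf1
  obtain ⟨y, hyV, hy1, c', hc'⟩ := exists_eigen h _ hc1 hc2 (by omega)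
  have hxy : inner ℝ x y = (0 : ℝ) :=
    (Submodule.mem_orthogonal _ _).1 hyV.1 x (Submodule.mem_span_singleton_self x)
  rcases plane_or h _ hc1 hyV hy1 hc' with ⟨z, t, hp⟩ | hye
  · exact Or.inl ⟨y, z, t, hp.mono inf_le_right⟩
  obtain ⟨e', he', hye⟩ := (sgn y).1 hye
  by_cases hee : e = e'
  · subst hee
    obtain ⟨t, ht⟩ := plane_of_eig he hxU hyV.2 hx1 hy1 hxy hxe hye
    exact Or.inl ⟨x, y, t, ht⟩
  rcases Nat.eq_zero_or_pos m with hm0 | hmpos
  · right
    refine ⟨hm0, ?_⟩
    have hyx : inner ℝ y x = (0 : ℝ) := by rw [real_inner_comm]; exact hxy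
    rcases he with rfl | rfl <;> rcases he' with rfl | rfl
    · exact absurd rfl hee
    · exact ⟨x, y, hxU, hyV.2, hx1, hy1, hxy, by rw [hxe, one_smul], by rw [hye, neg_one_smul]⟩
    · exact ⟨y, x, hyV.2, hxU, hy1, hx1, hyx, by rw [hye, one_smul], by rw [hxe, neg_one_smul]⟩
    · exact absurd rfl hee
  -- a third eigenvector
  left
  have hWp : ∀ z ∈ Submodule.span ℝ {x, y}, A z ∈ Submodule.span ℝ {x, y} :=
    span_pair_inv A (by rw [hxe]; exact Submodule.smul_mem _ _ (Submodule.subset_span (by simp)))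
      (by rw [hye]; exact Submodule.smul_mem _ _ (Submodule.subset_span (by simp)))
  have hWp' : ∀ z ∈ Submodule.span ℝ {x, y}, A' z ∈ Submodule.span ℝ {x, y} :=
    span_pair_inv A'
      (by rw [eig_inv' h he hxe]; exact Submodule.smul_mem _ _ (Submodule.subset_span (by simp)))
      (by rw [eig_inv' h he' hye]; exact Submodule.smul_mem _ _ (Submodule.subset_span (by simp)))
  obtain ⟨hd1, hd2⟩ := compl_inv h hU hU' hWp hWp'
  have hle2 : Submodule.span ℝ {x, y} ≤ U := by
    rw [Submodule.span_le]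
    intro z hz
    rcases hz with rfl | hz
    · exact hxU
    · rw [Set.mem_singleton_iff.1 hz]; exact hyV.2
  have hf2 := Submodule.finrank_add_inf_finrank_orthogonal hle2
  rw [finrank_pair hx1 hy1 hxy] at hf2
  obtain ⟨z, hzV, hz1, c'', hc''⟩ := exists_eigen h _ hd1 hd2 (by omega)
  have hxz : inner ℝ x z = (0 : ℝ) :=
    (Submodule.mem_orthogonal _ _).1 hzV.1 x (Submodule.subset_span (by simp))
  have hyz : inner ℝ y z = (0 : ℝ) :=
    (Submodule.mem_orthogonal _ _).1 hzV.1 y (Submodule.subset_span (by simp))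
  rcases plane_or h _ hd1 hzV hz1 hc'' with ⟨w, t, hp⟩ | hze
  · exact ⟨z, w, t, hp.mono inf_le_right⟩
  obtain ⟨e'', he'', hze⟩ := (sgn z).1 hze
  have : e'' = e ∨ e'' = e' := by
    rcases he with rfl | rfl <;> rcases he' with rfl | rfl <;> rcases he'' with rfl | rfl <;> simp_all
  rcases this with h3 | h3
  · subst h3
    obtain ⟨t, ht⟩ := plane_of_eig he hxU hzV.2 hx1 hz1 hxz hxe hze
    exact ⟨x, z, t, ht⟩
  · subst h3
    obtain ⟨t, ht⟩ := plane_of_eig he' hyV.2 hzV.2 hy1 hz1 hyz hye hze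
    exact ⟨y, z, t, ht⟩

/-- The canonical form on a subspace. -/
def Good (A : E →ₗ[ℝ] E) (U : Submodule ℝ E) : Prop :=
  ∃ (ι : Type) (_ : Fintype ι) (_ : DecidableEq ι) (u v : ι → E) (t ε : ι → ℝ),
    (∀ i, u i ∈ U) ∧ (∀ i, v i ∈ U) ∧
    (∀ i j, inner ℝ (u i) (u j) = if i = j then (1 : ℝ) else 0) ∧
    (∀ i j, inner ℝ (v i) (v j) = if i = j then (1 : ℝ) else 0) ∧
    (∀ i j, inner ℝ (u i) (v j) = (0 : ℝ)) ∧
    (∀ i, A (u i) = Real.cos (t i) • u i + Real.sin (t i) • v i) ∧
    (∀ i, A (v i) = ε i • ((-Real.sin (t i)) • u i + Real.cos (t i) • v i)) ∧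
    ((∀ i, ε i = 1) ∨ ∏ i, ε i = -1) ∧ finrank ℝ U = 2 * Fintype.card ι

lemma inner_self_one {x : E} (hx : ‖x‖ = 1) : inner ℝ x x = (1 : ℝ) := by
  rw [real_inner_self_eq_norm_sq, hx]; norm_num

theorem good (h : Orth A A') : ∀ (m : ℕ) (U : Submodule ℝ E), (∀ x ∈ U, A x ∈ U) →
    (∀ x ∈ U, A' x ∈ U) → finrank ℝ U = 2 * m → Good A U := by
  intro m
  induction m with
  | zero =>
    intro U _ _ hf
    refine ⟨Fin 0, inferInstance, inferInstance, fun i => i.elim0, fun i => i.elim0,
      fun i => i.elim0, fun i => i.elim0, fun i => i.elim0, fun i => i.elim0, fun i => i.elim0,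
      fun i => i.elim0, fun i => i.elim0, fun i => i.elim0, fun i => i.elim0,
      Or.inl fun i => i.elim0, ?_⟩
    simpa using hf
  | succ m ih =>
    intro U hU hU' hf
    rcases step h hU hU' hf with ⟨x, y, t, hp⟩ | ⟨hm0, x, y, hxU, hyU, hx1, hy1, hxy, hAx, hAy⟩
    · obtain ⟨hi1, hi2⟩ := hp.inv h
      obtain ⟨hd1, hd2⟩ := compl_inv h hU hU' hi1 hi2
      obtain ⟨hxU, hyU, hx1, hy1, hxy, hAx, hAy⟩ := hp
      have hle2 : Submodule.span ℝ {x, y} ≤ U := by
        rw [Submodule.span_le]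
        intro z hz
        rcases hz with rfl | hz
        · exact hxU
        · rw [Set.mem_singleton_iff.1 hz]; exact hyU
      have hf2 := Submodule.finrank_add_inf_finrank_orthogonal hle2
      rw [finrank_pair hx1 hy1 hxy] at hf2
      obtain ⟨ι, _, _, u, v, τ, ε, hu, hv, huu, hvv, huv, hAu, hAv, hε, hcard⟩ :=
        ih _ hd1 hd2 (by omega)
      have hor : ∀ z ∈ (Submodule.span ℝ {x, y})ᗮ ⊓ U,
          inner ℝ x z = (0 : ℝ) ∧ inner ℝ y z = (0 : ℝ) := fun z hz =>
        ⟨(Submodule.mem_orthogonal _ _).1 hz.1 x (Submodule.subset_span (by simp)),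
          (Submodule.mem_orthogonal _ _).1 hz.1 y (Submodule.subset_span (by simp))⟩
      refine ⟨Option ι, inferInstance, inferInstance, fun o => o.elim x u, fun o => o.elim y v,
        fun o => o.elim t τ, fun o => o.elim 1 ε, ?_, ?_, ?_, ?_, ?_, ?_, ?_, ?_, ?_⟩
      · rintro (_ | i)
        · exact hxU
        · exact (hu i).2
      · rintro (_ | i)
        · exact hyU
        · exact (hv i).2
      · rintro (_ | i) (_ | j)
        · simp [hx1]
        · simp [(hor _ (hu j)).1]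
        · simp [real_inner_comm, (hor _ (hu i)).1]
        · simp [huu i j]
      · rintro (_ | i) (_ | j)
        · simp [hy1]
        · simp [(hor _ (hv j)).2]
        · simp [real_inner_comm, (hor _ (hv i)).2]
        · simp [hvv i j]
      · rintro (_ | i) (_ | j)
        · simp [hxy]
        · simp [(hor _ (hv j)).1]
        · simp [real_inner_comm, (hor _ (hu i)).2]
        · simp [huv i j]
      · rintro (_ | i)
        · simp [hAx]
        · simp [hAu i]
      · rintro (_ | i)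
        · simp [hAy]
        · simp [hAv i]
      · rcases hε with hε | hε
        · left
          rintro (_ | i)
          · rfl
          · exact hε i
        · right
          rw [Fintype.prod_option]
          simp [hε]
      · rw [Fintype.card_option]; omega
    · subst hm0
      refine ⟨Fin 1, inferInstance, inferInstance, fun _ => x, fun _ => y, fun _ => 0,
        fun _ => -1, fun _ => hxU, fun _ => hyU, ?_, ?_, ?_, ?_, ?_, ?_, ?_⟩
      · intro i j; rw [Subsingleton.elim i j]; simp [hx1]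
      · intro i j; rw [Subsingleton.elim i j]; simp [hy1]
      · intro i j; exact hxy
      · intro i; simp [hAx]
      · intro i; simp [hAy]
      · right; simp
      · simpa using hf

end Pool.Agent.K3lead.Canon
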