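import Pool.Agent.K3h92.Top
import Pool.Agent.K3lead.Canon

/-!
# Every element of `SO(4k)` is a commutator
-/

set_option autoImplicit false

open Matrix Module

namespace Pool.Agent.K3lead.Comm

open Pool.Agent.K3h92

section Rot

variable {ι : Type} [Fintype ι] [DecidableEq ι]

/-- The block rotation. -/
noncomputable def rotM (t : ι → ℝ) : Matrix (ι ⊕ ι) (ι ⊕ ι) ℝ :=
  fromBlocks (diagonal fun i => Real.cos (t i)) (-diagonal fun i => Real.sin (t i))
    (diagonal fun i => Real.sin (t i)) (diagonal fun i => Real.cos (t i))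

lemma rotM_add (s t : ι → ℝ) : rotM (fun i => s i + t i) = rotM s * rotM t := by
  unfold rotM
  rw [fromBlocks_multiply]
  simp only [neg_mul, mul_neg, diagonal_mul_diagonal, neg_neg]
  congr 1
  · rw [← sub_eq_add_neg, diagonal_sub]
    congr 1; funext i; rw [Real.cos_add]
  · rw [← neg_add, diagonal_add]
    congr 2; funext i; rw [Real.sin_add]; ring
  · rw [diagonal_add]
    congr 1; funext i; rw [Real.sin_add]
  · rw [add_comm, ← sub_eq_add_neg, diagonal_sub]
    congr 1; funext i; rw [Real.cos_add]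

lemma rotM_zero : rotM (fun _ : ι => (0 : ℝ)) = 1 := by
  unfold rotM
  simp

lemma rotM_transpose (t : ι → ℝ) : (rotM t)ᵀ = rotM (fun i => -t i) := by
  unfold rotM
  rw [fromBlocks_transpose]
  simp

lemma rotM_orth (t : ι → ℝ) : (rotM t)ᵀ * rotM t = 1 := by
  rw [rotM_transpose, ← rotM_add]
  simp [rotM_zero]

lemma rotM_half (t : ι → ℝ) : rotM (fun i => t i / 2) * rotM (fun i => t i / 2) = rotM t := by
  rw [← rotM_add]
  congr 1; funext i; ring

lemma rotM_det (t : ι → ℝ) : (rotM t).det = 1 := by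
  have h := congrArg det (rotM_orth (fun i => t i / 2))
  rw [det_mul, det_transpose, det_one] at h
  rw [← rotM_half, det_mul, h]

variable (ι) in
/-- The reflection of all planes. -/
noncomputable def refl : Matrix (ι ⊕ ι) (ι ⊕ ι) ℝ := fromBlocks 1 0 0 (-1)

lemma refl_transpose : (refl ι)ᵀ = refl ι := by
  unfold refl
  rw [fromBlocks_transpose]
  simp

lemma refl_mul_refl : refl ι * refl ι = 1 := by
  unfold refl
  rw [fromBlocks_multiply]
  simp

lemma refl_det : (refl ι).det = (-1) ^ Fintype.card ι := by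
  unfold refl
  rw [det_fromBlocks_zero₂₁, det_one, one_mul, det_neg, det_one, mul_one]

lemma refl_conj (t : ι → ℝ) : refl ι * (rotM t)ᵀ * refl ι = rotM t := by
  rw [rotM_transpose]
  unfold refl rotM
  rw [fromBlocks_multiply, fromBlocks_multiply]
  simp

end Rot

variable {κ : Type} [Fintype κ] [DecidableEq κ]

lemma inner_eq_sum (x y : EuclideanSpace ℝ κ) : inner ℝ x y = ∑ k, x k * y k := by
  rw [PiLp.inner_apply]
  refine Finset.sum_congr rfl fun k _ => ?_
  simp [mul_comm]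

/-- The canonical form of a matrix in `SO(κ)`, `κ` even. -/
theorem exists_form (g : Matrix κ κ ℝ) (hg : gᵀ * g = 1) (hdet : g.det = 1)
    (h2 : 2 ∣ Fintype.card κ) :
    ∃ (ι : Type) (_ : Fintype ι) (_ : DecidableEq ι) (P : Matrix κ (ι ⊕ ι) ℝ) (t : ι → ℝ),
      Pᵀ * P = 1 ∧ P * Pᵀ = 1 ∧ Fintype.card κ = 2 * Fintype.card ι ∧ g = P * rotM t * Pᵀ := by
  obtain ⟨m, hm⟩ := h2
  have hg' : g * gᵀ = 1 := mul_eq_one_comm.1 hg
  let A : EuclideanSpace ℝ κ →ₗ[ℝ] EuclideanSpace ℝ κ := toEuclideanLin g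
  let A' : EuclideanSpace ℝ κ →ₗ[ℝ] EuclideanSpace ℝ κ := toEuclideanLin gᵀ
  have hA : ∀ (x : EuclideanSpace ℝ κ) k, A x k = ∑ l, g k l * x l := by
    intro x k
    simp [A, toEuclideanLin_apply, mulVec, dotProduct]
  have hA' : ∀ (x : EuclideanSpace ℝ κ) k, A' x k = ∑ l, g l k * x l := by
    intro x k
    simp [A', toEuclideanLin_apply, mulVec, dotProduct]
  have hO : Canon.Orth A A' := by
    refine ⟨fun x y => ?_, fun x => ?_, fun x => ?_⟩
    · rw [inner_eq_sum, inner_eq_sum]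
      simp_rw [hA, hA', Finset.sum_mul, Finset.mul_sum]
      rw [Finset.sum_comm]
      exact Finset.sum_congr rfl fun k _ => Finset.sum_congr rfl fun l _ => by ring
    · have : toEuclideanLin g (toEuclideanLin gᵀ x) = x := by
        simp only [toEuclideanLin_apply, mulVec_mulVec, hg', one_mulVec]
      exact this
    · have : toEuclideanLin gᵀ (toEuclideanLin g x) = x := by
        simp only [toEuclideanLin_apply, mulVec_mulVec, hg, one_mulVec]
      exact this
  have hfin : finrank ℝ (⊤ : Submodule ℝ (EuclideanSpace ℝ κ)) = 2 * m := by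
    rw [finrank_top, finrank_euclideanSpace, hm]
  obtain ⟨ι, _, _, u, v, t, ε, _, _, huu, hvv, huv, hAu, hAv, hε, hcard⟩ :=
    Canon.good hO m ⊤ (fun _ _ => trivial) (fun _ _ => trivial) hfin
  rw [finrank_top, finrank_euclideanSpace] at hcard
  let P : Matrix κ (ι ⊕ ι) ℝ := Matrix.of fun k s => Sum.elim (fun i => u i k) (fun i => v i k) s
  have hPl : ∀ k i, P k (Sum.inl i) = u i k := fun _ _ => rfl
  have hPr : ∀ k i, P k (Sum.inr i) = v i k := fun _ _ => rfl
  have hPP : Pᵀ * P = 1 := by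
    ext s s'
    rw [mul_apply]
    simp only [transpose_apply]
    rcases s with i | i <;> rcases s' with j | j
    · simp only [hPl]
      rw [← inner_eq_sum, huu, one_apply]
      simp
    · simp only [hPl, hPr]
      rw [← inner_eq_sum, huv, one_apply]
      simp
    · simp only [hPl, hPr]
      rw [← inner_eq_sum, real_inner_comm, huv, one_apply]
      simp
    · simp only [hPr]
      rw [← inner_eq_sum, hvv, one_apply]
      simp
  have hc2 : Fintype.card (ι ⊕ ι) = Fintype.card κ := by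
    rw [Fintype.card_sum, hcard]; ring
  have hPP' : P * Pᵀ = 1 := (mul_eq_one_comm_of_equiv (Fintype.equivOfCardEq hc2)).1 hPP
  have hgP : g * P = P * (rotM t * diagonal (Sum.elim (fun _ => 1) ε)) := by
    ext k s
    rw [mul_apply]
    have hL : ∀ (x : EuclideanSpace ℝ κ), ∑ l, g k l * x l = A x k := fun x => (hA x k).symm
    rcases s with i | i
    · simp only [hPl]
      rw [hL, hAu, mul_apply, Fintype.sum_sum_type]
      simp only [hPl, hPr, mul_diagonal, rotM, fromBlocks_apply₁₁, fromBlocks_apply₂₁,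
        diagonal_apply, Sum.elim_inl, mul_one]
      simp [mul_comm]
    · simp only [hPr]
      rw [hL, hAv, mul_apply, Fintype.sum_sum_type]
      simp only [hPl, hPr, mul_diagonal, rotM, fromBlocks_apply₁₂, fromBlocks_apply₂₂,
        diagonal_apply, Sum.elim_inr, Matrix.neg_apply]
      simp [diagonal_apply]
      ring
  have hgM : g = P * (rotM t * diagonal (Sum.elim (fun _ => 1) ε)) * Pᵀ := by
    rw [← hgP, Matrix.mul_assoc, hPP', Matrix.mul_one]
  have hprod : ∏ i, ε i = 1 := by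
    have h1 : (P * (rotM t * diagonal (Sum.elim (fun _ => 1) ε)) * Pᵀ).det =
        (rotM t * diagonal (Sum.elim (fun _ => 1) ε)).det := by
      rw [Matrix.mul_assoc, det_comm' hPP' hPP, Matrix.mul_assoc, hPP, Matrix.mul_one]
    rw [← hgM, hdet, det_mul, rotM_det, one_mul, det_diagonal, Fintype.prod_sum_type] at h1
    simpa using h1.symm
  have hε1 : ∀ i, ε i = 1 := by
    rcases hε with h | h
    · exact h
    · rw [hprod] at h; norm_num at h
  have hD : diagonal (Sum.elim (fun _ : ι => (1 : ℝ)) ε) = 1 := by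
    rw [← diagonal_one]
    congr 1
    funext s
    rcases s with i | i
    · rfl
    · exact hε1 i
  rw [hD, Matrix.mul_one] at hgM
  exact ⟨ι, inferInstance, inferInstance, P, t, hPP, hPP', hcard, hgM⟩

theorem exists_commutator (κ : Type) [Fintype κ] [DecidableEq κ] (h : 4 ∣ Fintype.card κ)
    (g : Pool.Agent.K3h92.SO κ) : ∃ a b : Pool.Agent.K3h92.SO κ, g = a * b * a⁻¹ * b⁻¹ := by
  obtain ⟨hg1, hg2⟩ := (SO.mem_iff _).1 g.2
  obtain ⟨ι, _, _, P, t, hP1, hP2, hcard, hgP⟩ :=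
    exists_form (g : Matrix κ κ ℝ) hg1 hg2 (dvd_trans (by norm_num) h)
  have heven : Even (Fintype.card ι) := by
    obtain ⟨j, hj⟩ := h
    exact ⟨j, by omega⟩
  -- conjugation by `P`
  have hmul : ∀ X Y : Matrix (ι ⊕ ι) (ι ⊕ ι) ℝ, (P * X * Pᵀ) * (P * Y * Pᵀ) = P * (X * Y) * Pᵀ := by
    intro X Y
    calc (P * X * Pᵀ) * (P * Y * Pᵀ) = P * X * (Pᵀ * P) * Y * Pᵀ := by
          simp only [Matrix.mul_assoc]
      _ = _ := by rw [hP1, Matrix.mul_one]; simp only [Matrix.mul_assoc]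
  have htr : ∀ X : Matrix (ι ⊕ ι) (ι ⊕ ι) ℝ, (P * X * Pᵀ)ᵀ = P * Xᵀ * Pᵀ := by
    intro X
    rw [transpose_mul, transpose_mul, transpose_transpose, Matrix.mul_assoc]
  have hdet : ∀ X : Matrix (ι ⊕ ι) (ι ⊕ ι) ℝ, (P * X * Pᵀ).det = X.det := by
    intro X
    rw [Matrix.mul_assoc, det_comm' hP2 hP1, Matrix.mul_assoc, hP1, Matrix.mul_one]
  have hmem : ∀ X : Matrix (ι ⊕ ι) (ι ⊕ ι) ℝ, Xᵀ * X = 1 → X.det = 1 → P * X * Pᵀ ∈ SO κ := by
    intro X h1 h2
    rw [SO.mem_iff]
    refine ⟨?_, by rw [hdet, h2]⟩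
    rw [htr, hmul, h1, Matrix.mul_one, hP2]
  let B : SO κ := ⟨P * rotM (fun i => t i / 2) * Pᵀ, hmem _ (rotM_orth _) (rotM_det _)⟩
  let F : SO κ := ⟨P * refl ι * Pᵀ, hmem _ (by rw [refl_transpose, refl_mul_refl])
    (by rw [refl_det, heven.neg_one_pow])⟩
  refine ⟨F, B⁻¹, ?_⟩
  apply Subtype.ext
  rw [inv_inv]
  rw [Submonoid.coe_mul, Submonoid.coe_mul, Submonoid.coe_mul, SO.coe_inv, SO.coe_inv]
  change (g : Matrix κ κ ℝ) = (P * refl ι * Pᵀ) * (P * rotM (fun i => t i / 2) * Pᵀ)ᵀ *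
    (P * refl ι * Pᵀ)ᵀ * (P * rotM (fun i => t i / 2) * Pᵀ)
  rw [htr, htr, refl_transpose, hmul, hmul, refl_conj, hmul, rotM_half]
  exact hgP

end Pool.Agent.K3lead.Comm
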