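import Mathlib

/-!
# Small-bias sets in `𝔽₂ᵇ`

A random map `B` from a set of `2 ^ d ≥ 200 (b + 1)` elements to `𝔽₂ᵇ` has bias at most `1 / 10`, hence
the operator `g ↦ ∑ u, g (x + B u)` has norm at most `2 ^ d / 10` on the functions of mean zero.
-/

set_option autoImplicit false

open Finset

namespace Pool.Agent.K3lead.SmallBias

/-- The sign of an element of `ZMod 2`. -/
def sg (a : ZMod 2) : ℝ := if a = 0 then 1 else -1

lemma sg_zero : sg 0 = 1 := by simp [sg]

lemma sg_one : sg 1 = -1 := by simp [sg]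

lemma zmod2_cases (a : ZMod 2) : a = 0 ∨ a = 1 := by
  fin_cases a
  · left; rfl
  · right; rfl

lemma sg_add (a b : ZMod 2) : sg (a + b) = sg a * sg b := by
  rcases zmod2_cases a with rfl | rfl <;> rcases zmod2_cases b with rfl | rfl
  · simp [sg_zero]
  · simp [sg_zero]
  · simp [sg_zero]
  · have : (1 : ZMod 2) + 1 = 0 := by decide
    rw [this, sg_zero, sg_one]; norm_num

lemma sg_cases (a : ZMod 2) : sg a = 1 ∨ sg a = -1 := by
  rcases zmod2_cases a with rfl | rfl
  · left; exact sg_zero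
  · right; exact sg_one

variable {b : ℕ}

/-- The character of `𝔽₂ᵇ` given by `y`. -/
def chi (y x : Fin b → ZMod 2) : ℝ := sg (∑ i, y i * x i)

lemma chi_symm (y x : Fin b → ZMod 2) : chi y x = chi x y := by
  unfold chi; congr 1; exact sum_congr rfl fun i _ => mul_comm _ _

lemma chi_add (y x x' : Fin b → ZMod 2) : chi y (x + x') = chi y x * chi y x' := by
  unfold chi
  rw [← sg_add, ← sum_add_distrib]
  congr 1
  exact sum_congr rfl fun i _ => by simp [mul_add]

lemma chi_cases (y x : Fin b → ZMod 2) : chi y x = 1 ∨ chi y x = -1 := sg_cases _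

lemma chi_zero_left (x : Fin b → ZMod 2) : chi 0 x = 1 := by simp [chi, sg_zero]

lemma chi_zero_right (y : Fin b → ZMod 2) : chi y 0 = 1 := by simp [chi, sg_zero]

lemma sum_chi_ne {y : Fin b → ZMod 2} (hy : y ≠ 0) : ∑ x, chi y x = 0 := by
  obtain ⟨i, hi⟩ : ∃ i, y i ≠ 0 := by
    by_contra h
    push Not at h
    exact hy (funext h)
  have hyi : y i = 1 := by
    rcases zmod2_cases (y i) with h | h
    · exact absurd h hi
    · exact h
  have he : chi y (Pi.single i 1) = -1 := by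
    unfold chi
    have : ∑ j, y j * (Pi.single i 1 : Fin b → ZMod 2) j = 1 := by
      rw [Finset.sum_eq_single i]
      · simp [hyi]
      · intro j _ hj
        simp [hj]
      · intro h; exact absurd (mem_univ i) h
    rw [this, sg_one]
  obtain ⟨e, he'⟩ : ∃ e : Fin b → ZMod 2, chi y e = -1 := ⟨_, he⟩
  have h1 : ∑ x : Fin b → ZMod 2, chi y (x + e) = ∑ x, chi y x :=
    Equiv.sum_comp (Equiv.addRight e) (fun x => chi y x)
  have h2 : ∑ x : Fin b → ZMod 2, chi y (x + e) = - ∑ x, chi y x := by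
    rw [← sum_neg_distrib]
    exact sum_congr rfl fun x _ => by rw [chi_add, he']; ring
  linarith

lemma sum_chi_right (x : Fin b → ZMod 2) :
    ∑ y, chi y x = if x = 0 then (2 : ℝ) ^ b else 0 := by
  split_ifs with h
  · subst h
    simp [chi_zero_right, Fintype.card_pi, ZMod.card]
  · rw [← sum_chi_ne h]
    exact sum_congr rfl fun y _ => chi_symm y x

lemma exp_mul_chi (s : ℝ) (y x : Fin b → ZMod 2) :
    Real.exp (s * chi y x) = Real.cosh s + chi y x * Real.sinh s := by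
  rcases chi_cases y x with h | h <;> rw [h]
  · rw [mul_one, one_mul, Real.cosh_add_sinh]
  · rw [show s * -1 = -s by ring, ← Real.cosh_sub_sinh]; ring

lemma sum_exp_chi (s : ℝ) {y : Fin b → ZMod 2} (hy : y ≠ 0) :
    ∑ x, Real.exp (s * chi y x) = 2 ^ b * Real.cosh s := by
  simp_rw [exp_mul_chi]
  rw [sum_add_distrib, ← sum_mul, sum_chi_ne hy]
  simp [Fintype.card_pi, ZMod.card]

/-- The exponential moment of the bias. -/
lemma sum_exp_bias {U : Type} [Fintype U] [DecidableEq U] (s : ℝ) {y : Fin b → ZMod 2} (hy : y ≠ 0) :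
    ∑ B : U → (Fin b → ZMod 2), Real.exp (s * ∑ u, chi y (B u)) ≤
      ((2 : ℝ) ^ b) ^ Fintype.card U * Real.exp (s ^ 2 / 2 * Fintype.card U) := by
  have h1 : ∑ B : U → (Fin b → ZMod 2), Real.exp (s * ∑ u, chi y (B u)) =
      ∏ _u : U, ∑ x, Real.exp (s * chi y x) := by
    rw [Finset.prod_univ_sum, Fintype.piFinset_univ]
    refine sum_congr rfl fun B _ => ?_
    rw [mul_sum, Real.exp_sum]
  rw [h1, sum_exp_chi s hy, prod_const, card_univ, mul_pow]
  refine mul_le_mul_of_nonneg_left ?_ (by positivity)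
  rw [show s ^ 2 / 2 * (Fintype.card U : ℝ) = Fintype.card U * (s ^ 2 / 2) by ring, Real.exp_nat_mul]
  exact pow_le_pow_left₀ (Real.cosh_pos s).le (Real.cosh_le_exp_half_sq s) _

lemma exists_small {U : Type} [Fintype U] [DecidableEq U] (hU : 200 * (b + 1) ≤ Fintype.card U) :
    ∃ B : U → (Fin b → ZMod 2), ∀ y, y ≠ 0 → |∑ u, chi y (B u)| ≤ (Fintype.card U : ℝ) / 10 := by
  classical
  by_contra hno
  push Not at hno
  obtain ⟨D, hD⟩ : ∃ D : ℝ, D = (Fintype.card U : ℝ) := ⟨_, rfl⟩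
  rw [← hD] at hno
  -- lower bound for every `B`
  have hlow : ∀ B : U → (Fin b → ZMod 2), Real.exp (D / 100) ≤
      ∑ y ∈ univ.filter (fun y : Fin b → ZMod 2 => y ≠ 0),
        (Real.exp ((1 / 10 : ℝ) * ∑ u, chi y (B u)) +
          Real.exp ((-1 / 10 : ℝ) * ∑ u, chi y (B u))) := by
    intro B
    obtain ⟨y, hy, hB⟩ := hno B
    have hmem : y ∈ univ.filter (fun y : Fin b → ZMod 2 => y ≠ 0) := by simp [hy]
    refine le_trans ?_ (single_le_sum (f := fun y =>
      (Real.exp ((1 / 10 : ℝ) * ∑ u, chi y (B u)) +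
          Real.exp ((-1 / 10 : ℝ) * ∑ u, chi y (B u)))) (fun _ _ => by positivity) hmem)
    rcases lt_abs.1 hB with h | h
    · have : Real.exp (D / 100) ≤ Real.exp ((1 / 10 : ℝ) * ∑ u, chi y (B u)) :=
        Real.exp_le_exp.2 (by linarith)
      have h2 := Real.exp_pos ((-1 / 10 : ℝ) * ∑ u, chi y (B u))
      linarith
    · have : Real.exp (D / 100) ≤ Real.exp ((-1 / 10 : ℝ) * ∑ u, chi y (B u)) :=
        Real.exp_le_exp.2 (by linarith)
      have h2 := Real.exp_pos ((1 / 10 : ℝ) * ∑ u, chi y (B u))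
      linarith
  have hsum := sum_le_sum fun (B : U → (Fin b → ZMod 2)) (_ : B ∈ univ) => hlow B
  rw [sum_comm] at hsum
  have hup : ∑ y ∈ univ.filter (fun y : Fin b → ZMod 2 => y ≠ 0),
      ∑ B : U → (Fin b → ZMod 2), (Real.exp ((1 / 10 : ℝ) * ∑ u, chi y (B u)) +
          Real.exp ((-1 / 10 : ℝ) * ∑ u, chi y (B u))) ≤
      ∑ _y ∈ univ.filter (fun y : Fin b → ZMod 2 => y ≠ 0),
        (2 * (((2 : ℝ) ^ b) ^ Fintype.card U * Real.exp (D / 200))) := by
    refine sum_le_sum fun y hy => ?_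
    have hy0 : y ≠ 0 := (mem_filter.1 hy).2
    rw [sum_add_distrib, two_mul]
    have e1 : (1 / 10 : ℝ) ^ 2 / 2 * Fintype.card U = D / 200 := by rw [hD]; ring
    have e2 : (-1 / 10 : ℝ) ^ 2 / 2 * Fintype.card U = D / 200 := by rw [hD]; ring
    have a1 := sum_exp_bias (U := U) (1 / 10 : ℝ) hy0
    have a2 := sum_exp_bias (U := U) (-1 / 10 : ℝ) hy0
    rw [e1] at a1
    rw [e2] at a2
    exact add_le_add a1 a2
  rw [sum_const, nsmul_eq_mul] at hup
  rw [sum_const, nsmul_eq_mul, card_univ] at hsum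
  have hcardB : (Fintype.card (U → (Fin b → ZMod 2)) : ℝ) = ((2 : ℝ) ^ b) ^ Fintype.card U := by
    simp [Fintype.card_pi, ZMod.card]
  rw [hcardB] at hsum
  have hfil : ((univ.filter (fun y : Fin b → ZMod 2 => y ≠ 0)).card : ℝ) ≤ 2 ^ b := by
    have h := card_le_univ (univ.filter (fun y : Fin b → ZMod 2 => y ≠ 0))
    have h2 : Fintype.card (Fin b → ZMod 2) = 2 ^ b := by simp [Fintype.card_pi, ZMod.card]
    rw [h2] at h
    exact_mod_cast h
  have hN : 0 < ((2 : ℝ) ^ b) ^ Fintype.card U := by positivity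
  have h3 : ((2 : ℝ) ^ b) ^ Fintype.card U * Real.exp (D / 100) ≤
      2 ^ b * (2 * (((2 : ℝ) ^ b) ^ Fintype.card U * Real.exp (D / 200))) :=
    hsum.trans (hup.trans (mul_le_mul_of_nonneg_right hfil (by positivity)))
  have h4 : Real.exp (D / 100) = Real.exp (D / 200) * Real.exp (D / 200) := by
    rw [← Real.exp_add]; ring_nf
  have h5 : Real.exp (D / 200) ≤ 2 ^ b * 2 := by
    rw [h4] at h3
    have hpos : 0 < ((2 : ℝ) ^ b) ^ Fintype.card U * Real.exp (D / 200) := by positivity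
    have h6 : (((2 : ℝ) ^ b) ^ Fintype.card U * Real.exp (D / 200)) * Real.exp (D / 200) ≤
        (((2 : ℝ) ^ b) ^ Fintype.card U * Real.exp (D / 200)) * (2 ^ b * 2) := by
      calc _ = ((2 : ℝ) ^ b) ^ Fintype.card U * (Real.exp (D / 200) * Real.exp (D / 200)) := by ring
        _ ≤ _ := h3
        _ = _ := by ring
    exact le_of_mul_le_mul_left h6 hpos
  have h7 : (200 : ℝ) * (b + 1) ≤ D := by
    rw [hD]; exact_mod_cast hU
  have h8 : Real.exp ((b : ℝ) + 1) ≤ Real.exp (D / 200) := Real.exp_le_exp.2 (by linarith)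
  have h9 : Real.exp ((b : ℝ) + 1) = Real.exp 1 ^ (b + 1) := by
    rw [← Real.exp_nat_mul]; push_cast; ring_nf
  have h10 : (2 : ℝ) ^ (b + 1) < Real.exp 1 ^ (b + 1) :=
    pow_lt_pow_left₀ (by have := Real.add_one_lt_exp (one_ne_zero (α := ℝ)); linarith)
      (by norm_num) (by omega)
  rw [pow_succ] at h10
  linarith

/-- The Fourier transform. -/
noncomputable def hat (f : (Fin b → ZMod 2) → ℝ) (y : Fin b → ZMod 2) : ℝ := ∑ x, f x * chi y x

lemma add_add_eq_zero_iff (x z c : Fin b → ZMod 2) : x + z + c = 0 ↔ z = x + c := by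
  have h2 : ∀ a : Fin b → ZMod 2, a + a = 0 := fun a => by
    funext i
    exact CharTwo.add_self_eq_zero (a i)
  constructor
  · intro h
    have : z = x + c + (x + z + c) := by
      calc z = (x + x) + z + (c + c) := by rw [h2, h2]; simp
        _ = x + c + (x + z + c) := by abel
    rw [this, h, add_zero]
  · rintro rfl
    calc x + (x + c) + c = (x + x) + (c + c) := by abel
      _ = 0 := by rw [h2, h2, add_zero]

lemma fourier (f g : (Fin b → ZMod 2) → ℝ) (c : Fin b → ZMod 2) :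
    ∑ y, hat f y * hat g y * chi y c = 2 ^ b * ∑ x, f x * g (x + c) := by
  unfold hat
  calc ∑ y, (∑ x, f x * chi y x) * (∑ x, g x * chi y x) * chi y c
      = ∑ y, ∑ x, ∑ z, f x * g z * chi y (x + z + c) := by
        refine sum_congr rfl fun y _ => ?_
        rw [sum_mul_sum, sum_mul]
        refine sum_congr rfl fun x _ => ?_
        rw [sum_mul]
        refine sum_congr rfl fun z _ => ?_
        rw [chi_add, chi_add]; ring
    _ = ∑ x, ∑ z, f x * g z * ∑ y, chi y (x + z + c) := by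
        rw [sum_comm]
        refine sum_congr rfl fun x _ => ?_
        rw [sum_comm]
        refine sum_congr rfl fun z _ => ?_
        rw [mul_sum]
    _ = ∑ x, f x * g (x + c) * 2 ^ b := by
        refine sum_congr rfl fun x _ => ?_
        rw [Finset.sum_eq_single (x + c)]
        · rw [sum_chi_right, if_pos ((add_add_eq_zero_iff x (x + c) c).2 rfl)]
        · intro z _ hz
          rw [sum_chi_right, if_neg fun h => hz ((add_add_eq_zero_iff x z c).1 h), mul_zero]
        · intro h; exact absurd (mem_univ _) h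
    _ = _ := by rw [← sum_mul, mul_comm]

lemma parseval (f : (Fin b → ZMod 2) → ℝ) : ∑ y, hat f y ^ 2 = 2 ^ b * ∑ x, f x ^ 2 := by
  have h := fourier f f 0
  simp only [chi_zero_right, add_zero, mul_one] at h
  rw [show ∑ y, hat f y ^ 2 = ∑ y, hat f y * hat f y from sum_congr rfl fun y _ => sq _, h]
  congr 1
  exact sum_congr rfl fun y _ => (sq _).symm

theorem exists_small_bias : ∃ C : ℕ, ∀ b d : ℕ, C * (b + 1) ≤ 2 ^ d →
    ∃ B : (Fin d → ZMod 2) → (Fin b → ZMod 2), ∀ f g : (Fin b → ZMod 2) → ℝ, ∑ x, f x = 0 →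
      |∑ x, ∑ u, f x * g (x + B u)| ≤
        ((2 : ℝ) ^ d / 10) * (Real.sqrt (∑ x, f x ^ 2) * Real.sqrt (∑ x, g x ^ 2)) := by
  refine ⟨200, fun b d hbd => ?_⟩
  have hcard : Fintype.card (Fin d → ZMod 2) = 2 ^ d := by simp [Fintype.card_pi, ZMod.card]
  obtain ⟨B, hB⟩ := exists_small (b := b) (U := Fin d → ZMod 2) (by rw [hcard]; exact hbd)
  refine ⟨B, fun f g hf => ?_⟩
  have hcardR : (Fintype.card (Fin d → ZMod 2) : ℝ) = 2 ^ d := by rw [hcard]; push_cast; rfl
  rw [hcardR] at hB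
  have h2b : (0 : ℝ) < 2 ^ b := by positivity
  have h2d : (0 : ℝ) ≤ 2 ^ d / 10 := by positivity
  -- the main identity
  have hmain : 2 ^ b * ∑ x, ∑ u, f x * g (x + B u) =
      ∑ y, hat f y * hat g y * ∑ u, chi y (B u) := by
    rw [sum_comm, mul_sum]
    calc ∑ u, 2 ^ b * ∑ x, f x * g (x + B u) = ∑ u, ∑ y, hat f y * hat g y * chi y (B u) :=
          sum_congr rfl fun u _ => (fourier f g (B u)).symm
      _ = _ := by
          rw [sum_comm]
          exact sum_congr rfl fun y _ => by rw [mul_sum]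
  have hhat0 : hat f 0 = 0 := by
    unfold hat
    simp only [chi_zero_left, mul_one]
    exact hf
  have hbound : |∑ y, hat f y * hat g y * ∑ u, chi y (B u)| ≤
      (2 ^ d / 10) * ∑ y, |hat f y| * |hat g y| := by
    rw [mul_sum]
    refine (abs_sum_le_sum_abs _ _).trans (sum_le_sum fun y _ => ?_)
    rw [abs_mul, abs_mul]
    by_cases hy : y = 0
    · subst hy
      simp [hhat0]
    · calc |hat f y| * |hat g y| * |∑ u, chi y (B u)| ≤ |hat f y| * |hat g y| * (2 ^ d / 10) :=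
            mul_le_mul_of_nonneg_left (hB y hy) (by positivity)
        _ = _ := by ring
  have hcs : ∑ y, |hat f y| * |hat g y| ≤
      2 ^ b * (Real.sqrt (∑ x, f x ^ 2) * Real.sqrt (∑ x, g x ^ 2)) := by
    have h1 := Real.sum_mul_le_sqrt_mul_sqrt (univ : Finset (Fin b → ZMod 2))
      (fun y => |hat f y|) (fun y => |hat g y|)
    simp only [sq_abs] at h1
    rw [parseval, parseval, Real.sqrt_mul h2b.le, Real.sqrt_mul h2b.le] at h1
    refine h1.trans (le_of_eq ?_)
    have : Real.sqrt (2 ^ b) * Real.sqrt (2 ^ b) = (2 : ℝ) ^ b := Real.mul_self_sqrt h2b.le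
    calc _ = (Real.sqrt (2 ^ b) * Real.sqrt (2 ^ b)) *
        (Real.sqrt (∑ x, f x ^ 2) * Real.sqrt (∑ x, g x ^ 2)) := by ring
      _ = _ := by rw [this]
  have hfin : 2 ^ b * |∑ x, ∑ u, f x * g (x + B u)| ≤
      2 ^ b * (((2 : ℝ) ^ d / 10) * (Real.sqrt (∑ x, f x ^ 2) * Real.sqrt (∑ x, g x ^ 2))) := by
    calc 2 ^ b * |∑ x, ∑ u, f x * g (x + B u)| = |2 ^ b * ∑ x, ∑ u, f x * g (x + B u)| := by
          rw [abs_mul, abs_of_pos h2b]
      _ ≤ (2 ^ d / 10) * ∑ y, |hat f y| * |hat g y| := by rw [hmain]; exact hbound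
      _ ≤ (2 ^ d / 10) * (2 ^ b * (Real.sqrt (∑ x, f x ^ 2) * Real.sqrt (∑ x, g x ^ 2))) :=
          mul_le_mul_of_nonneg_left hcs h2d
      _ = _ := by ring
  exact le_of_mul_le_mul_left hfin h2b

end Pool.Agent.K3lead.SmallBias
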